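import Mathlib

/-!
# Intervals in order of arrival, reverse deletion and pruning

The combinatorial core of `m*_k ≤ 2k - 1` for bottomless rectangles.
-/

namespace Pool.Agent.V7L.Bot

open Finset Classical

noncomputable section

variable (l r : ℕ → ℝ)

/-- The point `x` lies in the interval number `j`. -/
def Mem (j : ℕ) (x : ℝ) : Prop := l j ≤ x ∧ x ≤ r j

/-- Members of `D` which contain `x`. -/
def at' (D : Finset ℕ) (x : ℝ) : Finset ℕ := D.filter (fun j => Mem l r j x)

/-- The number of intervals among the first `s` which contain `x`. -/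
def depth (s : ℕ) (x : ℝ) : ℕ := (at' l r (range s) x).card

lemma exists_prune (D0 : Finset ℕ) :
    ∃ D ⊆ D0, (∀ x, (∃ j ∈ D0, Mem l r j x) → ∃ j ∈ D, Mem l r j x) ∧
      ∀ x, (at' l r D x).card ≤ 2 := by
  classical
  let S : Finset (Finset ℕ) := D0.powerset.filter
    (fun D => ∀ x, (∃ j ∈ D0, Mem l r j x) → ∃ j ∈ D, Mem l r j x)
  have hS : S.Nonempty := ⟨D0, by
    simp only [S, mem_filter, mem_powerset]
    exact ⟨Subset.refl _, fun x hx => hx⟩⟩
  obtain ⟨D, hD, hmin⟩ := S.exists_min_image (fun D => D.card) hS
  simp only [S, mem_filter, mem_powerset] at hD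
  refine ⟨D, hD.1, hD.2, ?_⟩
  intro z
  by_contra hz
  push Not at hz
  set E := at' l r D z with hE
  have hEne : E.Nonempty := card_pos.1 (by omega)
  obtain ⟨a, haE, ha⟩ := E.exists_min_image l hEne
  obtain ⟨b, hbE, hb⟩ := E.exists_max_image r hEne
  have h3 : ∃ c ∈ E, c ≠ a ∧ c ≠ b := by
    by_contra hno
    push Not at hno
    have hsub : E ⊆ {a, b} := by
      intro c hc
      by_cases hca : c = a
      · simp [hca]
      · simp [hno c hc hca]
    have := card_le_card hsub
    have h2 : ({a, b} : Finset ℕ).card ≤ 2 := card_le_two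
    omega
  obtain ⟨c, hcE, hca, hcb⟩ := h3
  have memE : ∀ j, j ∈ E ↔ j ∈ D ∧ Mem l r j z := by
    intro j; simp [hE, at']
  have haD := (memE a).1 haE
  have hbD := (memE b).1 hbE
  have hcD := (memE c).1 hcE
  have hD' : D.erase c ∈ S := by
    simp only [S, mem_filter, mem_powerset]
    refine ⟨(erase_subset _ _).trans hD.1, ?_⟩
    intro x hx
    obtain ⟨j, hjD, hjx⟩ := hD.2 x hx
    by_cases hjc : j = c
    · subst hjc
      by_cases hxz : x ≤ z
      · refine ⟨a, mem_erase.2 ⟨Ne.symm hca, haD.1⟩, ?_, hxz.trans haD.2.2⟩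
        exact (ha j hcE).trans hjx.1
      · push Not at hxz
        refine ⟨b, mem_erase.2 ⟨Ne.symm hcb, hbD.1⟩, hbD.2.1.trans hxz.le, ?_⟩
        exact hjx.2.trans (hb j hcE)
    · exact ⟨j, mem_erase.2 ⟨hjc, hjD⟩, hjx⟩
  have := hmin _ hD'
  have hlt : (D.erase c).card < D.card := card_erase_lt_of_mem hcD.1
  omega

variable {k : ℕ}

/-- A family of `k` pairwise disjoint classes among the first `s` intervals, each of them covering
every point at most twice. -/
structure Good (s : ℕ) (C : Fin k → Finset ℕ) : Prop where
  sub : ∀ i, C i ⊆ range s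
  disj : ∀ i j, i ≠ j → Disjoint (C i) (C j)
  two : ∀ i x, (at' l r (C i) x).card ≤ 2

/-- The class number `i` covers the point `x` for every pair `(i, x)` of `R`. -/
def Cov (C : Fin k → Finset ℕ) (R : Finset (Fin k × ℝ)) : Prop :=
  ∀ q ∈ R, ∃ j ∈ C q.1, Mem l r j q.2

lemma exists_free {s : ℕ} {C : Fin k → Finset ℕ} (hC : Good l r s C) {i : Fin k} {y : ℝ}
    (hy : 2 * k ≤ depth l r s y + 1) (hn : ¬ ∃ j ∈ C i, Mem l r j y) :
    ∃ j ∈ range s, Mem l r j y ∧ ∀ i', j ∉ C i' := by
  classical
  by_contra hno
  push Not at hno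
  have hsub : at' l r (range s) y ⊆
      (univ.erase i).biUnion (fun i' => at' l r (C i') y) := by
    intro j hj
    simp only [at', mem_filter] at hj
    obtain ⟨i', hi'⟩ := hno j hj.1 hj.2
    have hne : i' ≠ i := by
      rintro rfl
      exact hn ⟨j, hi', hj.2⟩
    simp only [mem_biUnion, mem_erase, mem_univ, and_true]
    exact ⟨i', hne, by simp [at', hi', hj.2]⟩
  have h1 := card_le_card hsub
  have h2 : ((univ.erase i).biUnion (fun i' => at' l r (C i') y)).card ≤
      (univ.erase i : Finset (Fin k)).card * 2 :=
    card_biUnion_le_card_mul _ _ _ (fun i' _ => hC.two i' y)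
  have h3 : (univ.erase i : Finset (Fin k)).card = k - 1 := by
    simp
  have hk : 0 < k := i.pos
  have h4 : depth l r s y = (at' l r (range s) y).card := rfl
  omega

lemma augment_one {s : ℕ} {C : Fin k → Finset ℕ} (hC : Good l r s C) {R : Finset (Fin k × ℝ)}
    (hR : Cov l r C R) (q : Fin k × ℝ) (hy : 2 * k ≤ depth l r s q.2 + 1) :
    ∃ C' : Fin k → Finset ℕ, Good l r s C' ∧ Cov l r C' (insert q R) := by
  classical
  obtain ⟨i, y⟩ := q
  by_cases hc : ∃ j ∈ C i, Mem l r j y
  · refine ⟨C, hC, ?_⟩
    intro q hq
    rcases mem_insert.1 hq with rfl | hq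
    · exact hc
    · exact hR q hq
  · obtain ⟨j, hjs, hjy, hjC⟩ := exists_free l r hC hy hc
    obtain ⟨D, hD, hcov, htwo⟩ := exists_prune l r (insert j (C i))
    refine ⟨Function.update C i D, ⟨?_, ?_, ?_⟩, ?_⟩
    · intro i'
      by_cases hi : i' = i
      · subst hi
        simp only [Function.update_self]
        refine hD.trans ?_
        intro a ha
        rcases mem_insert.1 ha with rfl | ha
        · exact hjs
        · exact hC.sub _ ha
      · simp only [Function.update_of_ne hi]
        exact hC.sub i'
    · have key : ∀ i', i' ≠ i → Disjoint D (C i') := by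
        intro i' hi'
        rw [Finset.disjoint_left]
        intro a ha ha'
        rcases mem_insert.1 (hD ha) with rfl | h
        · exact hjC i' ha'
        · exact (Finset.disjoint_left.1 (hC.disj i i' (Ne.symm hi'))) h ha'
      intro a b hab
      by_cases ha : a = i
      · subst ha
        rw [Function.update_self, Function.update_of_ne (Ne.symm hab)]
        exact key b (Ne.symm hab)
      · by_cases hb : b = i
        · subst hb
          rw [Function.update_self, Function.update_of_ne hab]
          exact (key a hab).symm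
        · rw [Function.update_of_ne ha, Function.update_of_ne hb]
          exact hC.disj a b hab
    · intro i' x
      by_cases hi : i' = i
      · subst hi
        simp only [Function.update_self]
        exact htwo x
      · simp only [Function.update_of_ne hi]
        exact hC.two i' x
    · intro q hq
      rcases mem_insert.1 hq with rfl | hq
      · simp only [Function.update_self]
        exact hcov y ⟨j, mem_insert_self _ _, hjy⟩
      · obtain ⟨a, ha, hax⟩ := hR q hq
        by_cases hi : q.1 = i
        · rw [hi] at ha ⊢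
          simp only [Function.update_self]
          exact hcov q.2 ⟨a, mem_insert_of_mem ha, hax⟩
        · rw [Function.update_of_ne hi]
          exact ⟨a, ha, hax⟩

lemma augment_all {s : ℕ} {C : Fin k → Finset ℕ} (hC : Good l r s C) {R : Finset (Fin k × ℝ)}
    (hR : Cov l r C R) (T : Finset (Fin k × ℝ)) (hT : ∀ q ∈ T, 2 * k ≤ depth l r s q.2 + 1) :
    ∃ C' : Fin k → Finset ℕ, Good l r s C' ∧ Cov l r C' (T ∪ R) := by
  classical
  induction T using Finset.induction_on with
  | empty => exact ⟨C, hC, by simpa using hR⟩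
  | insert q T hq ih =>
    obtain ⟨C1, h1, h2⟩ := ih (fun q' hq' => hT q' (mem_insert_of_mem hq'))
    obtain ⟨C2, h3, h4⟩ := augment_one l r h1 h2 q (hT q (mem_insert_self _ _))
    refine ⟨C2, h3, ?_⟩
    rwa [insert_union]

lemma depth_succ (s : ℕ) (x : ℝ) :
    depth l r (s + 1) x = depth l r s x + if Mem l r s x then 1 else 0 := by
  classical
  unfold depth at'
  rw [range_add_one, filter_insert]
  split_ifs with h
  · rw [card_insert_of_notMem (by simp)]
  · simp

lemma depth_mono {s t : ℕ} (h : s ≤ t) (x : ℝ) : depth l r s x ≤ depth l r t x := by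
  classical
  unfold depth at'
  exact card_le_card (filter_subset_filter _ (range_mono h))

lemma depth_lt {j s : ℕ} (h : j < s) {x : ℝ} (hx : Mem l r j x) :
    depth l r j x < depth l r s x := by
  have h1 := depth_succ l r j x
  rw [if_pos hx] at h1
  have h2 := depth_mono l r (Nat.succ_le_of_lt h) x
  have h3 : depth l r (j + 1) x ≤ depth l r s x := h2
  omega

/-- Reverse deletion: from a provisional state at time `s` one gets a colouring such that every
requirement `(i, x)` of `R` is met by an interval of colour `i` among the first `s`, and every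
point `x` of `Y` sees all `k` colours among the first `m` intervals which contain it. -/
theorem reverse_deletion (m : ℕ) (hm : 1 ≤ m) (hk : 2 * k ≤ m + 1) (s : ℕ) :
    ∀ (C : Fin k → Finset ℕ) (R : Finset (Fin k × ℝ)) (Y : Finset ℝ),
      Good l r s C → Cov l r C R → (∀ x ∈ Y, m ≤ depth l r s x) →
      ∃ c : ℕ → Option (Fin k),
        (∀ q ∈ R, ∃ j < s, Mem l r j q.2 ∧ c j = some q.1) ∧
        ∀ x ∈ Y, ∀ i : Fin k, ∃ j < s, Mem l r j x ∧ depth l r j x < m ∧ c j = some i := by
  classical
  induction s with
  | zero =>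
    intro C R Y hC hR hY
    refine ⟨fun _ => none, ?_, ?_⟩
    · intro q hq
      obtain ⟨j, hj, _⟩ := hR q hq
      have := hC.sub _ hj
      simp at this
    · intro x hx
      have := hY x hx
      simp [depth, at'] at this
      omega
  | succ s ih =>
    intro C R Y hC hR hY
    -- activate the points of depth exactly `m`
    set Ya := Y.filter (fun x => depth l r (s + 1) x = m) with hYa
    set T : Finset (Fin k × ℝ) := univ ×ˢ Ya with hTdef
    have hT : ∀ q ∈ T, 2 * k ≤ depth l r (s + 1) q.2 + 1 := by
      intro q hq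
      simp only [hTdef, mem_product, mem_univ, true_and, hYa, mem_filter] at hq
      rw [hq.2]; exact hk
    obtain ⟨C1, hC1, hR1⟩ := augment_all l r hC hR T hT
    -- delete interval `s`
    set C2 : Fin k → Finset ℕ := fun i => (C1 i).erase s with hC2
    set R2 : Finset (Fin k × ℝ) :=
      (T ∪ R).filter (fun q => ¬ (s ∈ C1 q.1 ∧ Mem l r s q.2)) with hR2
    set Y2 := Y.filter (fun x => ¬ depth l r (s + 1) x = m) with hY2
    have g2 : Good l r s C2 := by
      refine ⟨?_, ?_, ?_⟩
      · intro i a ha
        simp only [hC2, mem_erase] at ha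
        have := hC1.sub i ha.2
        simp only [mem_range] at this ⊢
        omega
      · intro i j hij
        exact (hC1.disj i j hij).mono (erase_subset _ _) (erase_subset _ _)
      · intro i x
        refine (card_le_card ?_).trans (hC1.two i x)
        exact filter_subset_filter _ (erase_subset _ _)
    have c2 : Cov l r C2 R2 := by
      intro q hq
      simp only [hR2, mem_filter] at hq
      obtain ⟨j, hj, hjx⟩ := hR1 q hq.1
      have hjs : j ≠ s := by
        rintro rfl
        exact hq.2 ⟨hj, hjx⟩
      exact ⟨j, by simp [hC2, hjs, hj], hjx⟩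
    have y2 : ∀ x ∈ Y2, m ≤ depth l r s x := by
      intro x hx
      simp only [hY2, mem_filter] at hx
      have h1 := hY x hx.1
      have h2 := depth_succ l r s x
      have h3 : depth l r (s + 1) x ≤ depth l r s x + 1 := by
        rw [h2]; split_ifs <;> omega
      have h4 := hx.2
      omega
    obtain ⟨c, hcR, hcY⟩ := ih C2 R2 Y2 g2 c2 y2
    -- final colour of interval `s`
    set c' : ℕ → Option (Fin k) := fun j =>
      if j = s then (if h : ∃ i, s ∈ C1 i then some h.choose else none) else c j with hc'
    have cs : ∀ i, s ∈ C1 i → c' s = some i := by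
      intro i hi
      have hex : ∃ i, s ∈ C1 i := ⟨i, hi⟩
      simp only [hc', if_true, dif_pos hex]
      congr 1
      by_contra hne
      exact (Finset.disjoint_left.1 (hC1.disj _ _ hne)) hex.choose_spec hi
    have cj : ∀ j, j < s → c' j = c j := by
      intro j hj
      simp [hc', hj.ne]
    have main : ∀ q ∈ T ∪ R, ∃ j < s + 1, Mem l r j q.2 ∧ c' j = some q.1 := by
      intro q hq
      by_cases hs : s ∈ C1 q.1 ∧ Mem l r s q.2
      · exact ⟨s, by omega, hs.2, cs _ hs.1⟩
      · obtain ⟨j, hj, h1, h2⟩ := hcR q (by simp only [hR2, mem_filter]; exact ⟨hq, hs⟩)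
        exact ⟨j, by omega, h1, by rw [cj j hj]; exact h2⟩
    refine ⟨c', ?_, ?_⟩
    · intro q hq
      exact main q (mem_union_right _ hq)
    · intro x hx i
      by_cases hxa : depth l r (s + 1) x = m
      · obtain ⟨j, hj, h1, h2⟩ := main (i, x) (by
          apply mem_union_left
          simp only [hTdef, mem_product, mem_univ, true_and, hYa, mem_filter]
          exact ⟨hx, hxa⟩)
        refine ⟨j, hj, h1, ?_, h2⟩
        have := depth_lt l r hj h1
        simp only at this
        omega
      · obtain ⟨j, hj, h1, h2, h3⟩ := hcY x (by simp only [hY2, mem_filter]; exact ⟨hx, hxa⟩) i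
        exact ⟨j, by omega, h1, h2, by rw [cj j hj]; exact h3⟩

/-- For intervals arriving one after the other there is a colouring with `k` colours such that
every point of a given finite set which is covered at least `m ≥ 2k - 1` times sees all colours
among the first `m` intervals which contain it. -/
theorem exists_colouring (m : ℕ) (hm : 1 ≤ m) (hk : 2 * k ≤ m + 1) (n : ℕ) (Y : Finset ℝ)
    (hY : ∀ x ∈ Y, m ≤ depth l r n x) :
    ∃ c : ℕ → Option (Fin k), ∀ x ∈ Y, ∀ i : Fin k,
      ∃ j < n, Mem l r j x ∧ depth l r j x < m ∧ c j = some i := by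
  obtain ⟨c, _, hc⟩ := reverse_deletion l r m hm hk n (fun _ => ∅) ∅ Y
    ⟨by simp, by simp, by simp [at']⟩ (by intro q hq; simp at hq) hY
  exact ⟨c, hc⟩

end

end Pool.Agent.V7L.Bot
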